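import Pool.Agent.helper3.SG.SpecN

/-!
# Project sg: module N01, large holes of the orbit
-/

set_option autoImplicit false

open MeasureTheory Set Metric Filter Topology
open scoped ENNReal NNReal ComplexConjugate commutatorElement

namespace Pool.Agent.SG

theorem N01 (h1 : B01_stmt) (h2 : B02_stmt) (h3 : B03_stmt) (h14 : B14_stmt) : N01_stmt := by
  intro Γ _ A hD hC τ hτ0 hτ1
  obtain ⟨-, ac2, -, ac1, acm, -, -, -, acc, -⟩ := h1 Γ A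
  obtain ⟨kkp, -, -, ptn, kki, -⟩ := h3 Γ A
  obtain ⟨-, -, hfin⟩ := h14 Γ A
  set ρ : ℝ := 1 - τ with hρ
  have hρ0 : 0 < ρ := by linarith
  have hρ1 : ρ < 1 := by linarith
  have hρ2 : 0 < 1 - ρ ^ 2 := by nlinarith
  -- the point `z₀`
  have hz : ∃ z₀ : ℂ, ‖z₀‖ < 1 ∧ ∀ γ, ρ < ‖A.act γ z₀‖ := by
    by_contra hcon
    push Not at hcon
    exact hC ⟨ρ, hρ1, fun z hz => hcon z hz⟩
  obtain ⟨z₀, hz1, hz2⟩ := hz
  set c : ℝ := (1 - ρ ^ 2) * (1 - ‖z₀‖) ^ 2 with hc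
  have hc0 : 0 < c := mul_pos hρ2 (pow_pos (by linarith) 2)
  -- only finitely many elements matter
  have hF : ∀ γ, ∀ z : ℂ, ‖z‖ ≤ ‖z₀‖ → ‖A.act γ z‖ ≤ ρ → c ≤ A.kk γ := by
    intro γ z hzz hzr
    have hb := (h2 Γ A γ).2.1 z (by linarith)
    have e1 : 1 - ρ ^ 2 ≤ 1 - ‖A.act γ z‖ ^ 2 := by
      have := norm_nonneg (A.act γ z)
      nlinarith
    have e2 : 1 - ‖z₀‖ ≤ ‖1 - conj (A.pt γ⁻¹) * z‖ := by
      have e3 : ‖(1 : ℂ)‖ - ‖conj (A.pt γ⁻¹) * z‖ ≤ ‖1 - conj (A.pt γ⁻¹) * z‖ :=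
        norm_sub_norm_le _ _
      rw [norm_one, norm_mul, Complex.norm_conj] at e3
      have e4 : ‖A.pt γ⁻¹‖ * ‖z‖ ≤ 1 * ‖z₀‖ :=
        mul_le_mul (ptn γ⁻¹).le hzz (norm_nonneg _) zero_le_one
      linarith
    have e5 : (1 - ‖z₀‖) ^ 2 ≤ ‖1 - conj (A.pt γ⁻¹) * z‖ ^ 2 :=
      pow_le_pow_left₀ (by linarith) e2 2
    have e6 : c ≤ (1 - ‖A.act γ z‖ ^ 2) * ‖1 - conj (A.pt γ⁻¹) * z‖ ^ 2 :=
      mul_le_mul e1 e5 (by positivity) (by linarith)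
    have e7 : A.kk γ * (1 - ‖z‖ ^ 2) ≤ A.kk γ := by
      have := (kkp γ).1
      have := sq_nonneg ‖z‖
      nlinarith
    linarith
  have hFfin := hfin hD c hc0
  have hnorm : ∀ t : ℝ, 0 ≤ t → t ≤ 1 → ‖(t : ℂ) * z₀‖ ≤ ‖z₀‖ := by
    intro t h0 h1
    rw [norm_mul, Complex.norm_real, Real.norm_of_nonneg h0]
    exact mul_le_of_le_one_left (norm_nonneg _) h1
  have hcont : ∀ γ, ContinuousOn (fun t : ℝ => ‖A.act γ ((t : ℂ) * z₀)‖) (Icc 0 1) := by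
    intro γ
    refine ContinuousOn.norm ?_
    refine (acc γ).comp (f := fun t : ℝ => (t : ℂ) * z₀) ?_ ?_
    · exact (Complex.continuous_ofReal.mul continuous_const).continuousOn
    · intro t ht
      rw [mem_closedBall_zero_iff]
      exact (hnorm t ht.1 ht.2).trans hz1.le
  set Θ : Set ℝ := {t | t ∈ Icc (0 : ℝ) 1 ∧ ∃ γ, ‖A.act γ ((t : ℂ) * z₀)‖ ≤ ρ} with hΘ
  have hΘeq : Θ = ⋃ γ ∈ {γ | c ≤ A.kk γ},
      (Icc (0 : ℝ) 1 ∩ (fun t : ℝ => ‖A.act γ ((t : ℂ) * z₀)‖) ⁻¹' Iic ρ) := by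
    ext t
    simp only [hΘ, mem_iUnion, mem_inter_iff, mem_preimage, mem_Iic, exists_prop]
    constructor
    · rintro ⟨ht, γ, hγ⟩
      exact ⟨γ, hF γ _ (hnorm t ht.1 ht.2) hγ, ht, hγ⟩
    · rintro ⟨γ, -, ht, hγ⟩
      exact ⟨ht, γ, hγ⟩
  have hΘcl : IsClosed Θ := by
    rw [hΘeq]
    exact hFfin.isClosed_biUnion fun γ _ =>
      (hcont γ).preimage_isClosed_of_isClosed isClosed_Icc isClosed_Iic
  have hΘc : IsCompact Θ := isCompact_Icc.of_isClosed_subset hΘcl (fun t ht => ht.1)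
  have hΘ0 : (0 : ℝ) ∈ Θ := by
    refine ⟨⟨le_rfl, zero_le_one⟩, 1, ?_⟩
    rw [Complex.ofReal_zero, zero_mul, ac1 0 (by simp), norm_zero]
    exact hρ0.le
  obtain ⟨θ, hθ, hθmax⟩ := hΘc.exists_isGreatest ⟨0, hΘ0⟩
  obtain ⟨⟨hθ0, hθ1⟩, γ₀, hγ₀⟩ := hθ
  have hθlt : θ < 1 := by
    rcases lt_or_eq_of_le hθ1 with h | h
    · exact h
    · rw [h, Complex.ofReal_one, one_mul] at hγ₀
      exact absurd hγ₀ (not_le.2 (hz2 γ₀))
  have hge : ∀ γ, ρ ≤ ‖A.act γ ((θ : ℂ) * z₀)‖ := by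
    intro γ
    have hcw : ContinuousWithinAt (fun t : ℝ => ‖A.act γ ((t : ℂ) * z₀)‖) (Ioc θ 1) θ :=
      ((hcont γ) θ ⟨hθ0, hθ1⟩).mono fun t ht => ⟨hθ0.trans ht.1.le, ht.2⟩
    have hne : (𝓝[Ioc θ 1] θ).NeBot := by
      rw [nhdsWithin_Ioc_eq_nhdsGT hθlt]
      infer_instance
    refine ge_of_tendsto hcw ?_
    filter_upwards [self_mem_nhdsWithin] with t ht
    by_contra hcon
    push Not at hcon
    have : t ∈ Θ := ⟨⟨hθ0.trans ht.1.le, ht.2⟩, γ, hcon.le⟩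
    exact absurd (hθmax this) (not_le.2 ht.1)
  set z : ℂ := A.act γ₀ ((θ : ℂ) * z₀) with hzdef
  have hzn : ‖z‖ = ρ := le_antisymm hγ₀ (hge γ₀)
  have hθz : ‖(θ : ℂ) * z₀‖ ≤ 1 := (hnorm θ hθ0 hθ1).trans hz1.le
  have hzall : ∀ γ, ρ ≤ ‖A.act γ z‖ := by
    intro γ
    rw [hzdef, ← acm γ γ₀ _ hθz]
    exact hge _
  have hρc : (ρ : ℂ) ≠ 0 := by
    exact_mod_cast hρ0.ne'
  refine ⟨z / ρ, ?_, ?_⟩
  · rw [norm_div, hzn, Complex.norm_real, Real.norm_of_nonneg hρ0.le, div_self hρ0.ne']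
  · intro γ
    set u : ℂ := z / ρ with hu
    have hun : ‖u‖ = 1 := by
      rw [hu, norm_div, hzn, Complex.norm_real, Real.norm_of_nonneg hρ0.le, div_self hρ0.ne']
    have hzu : z = ρ * u := by
      rw [hu]
      field_simp
    have hz1' : ‖z‖ ≤ 1 := by rw [hzn]; exact hρ1.le
    have hb := (h2 Γ A γ⁻¹).2.1 z hz1'
    rw [inv_inv, kki γ, hzn] at hb
    have e1 : 1 - ‖A.act γ⁻¹ z‖ ^ 2 ≤ 1 - ρ ^ 2 := by
      have := hzall γ⁻¹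
      nlinarith
    have e2 : A.kk γ ≤ ‖1 - conj (A.pt γ) * z‖ ^ 2 := by
      have h5 : (1 - ‖A.act γ⁻¹ z‖ ^ 2) * ‖1 - conj (A.pt γ) * z‖ ^ 2
          ≤ (1 - ρ ^ 2) * ‖1 - conj (A.pt γ) * z‖ ^ 2 :=
        mul_le_mul_of_nonneg_right e1 (sq_nonneg _)
      rw [hb] at h5
      have h6 : A.kk γ * (1 - ρ ^ 2) ≤ ‖1 - conj (A.pt γ) * z‖ ^ 2 * (1 - ρ ^ 2) := by linarith
      exact le_of_mul_le_mul_right h6 hρ2
    have e3 : ‖1 - conj (A.pt γ) * z‖ ≤ τ + ‖u - A.pt γ‖ := by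
      have huu : conj u * u = 1 := by
        rw [Complex.conj_mul', hun]
        norm_num
      have h7 : (1 : ℂ) - conj (A.pt γ) * z = (τ : ℂ) + ρ * (conj (u - A.pt γ) * u) := by
        rw [map_sub, sub_mul, huu, hzu]
        have : (τ : ℂ) = 1 - ρ := by
          rw [hρ]
          push_cast
          ring
        rw [this]
        ring
      rw [h7]
      refine (norm_add_le _ _).trans ?_
      rw [Complex.norm_real, Real.norm_of_nonneg hτ0.le, norm_mul, norm_mul, Complex.norm_conj, hun,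
        mul_one, Complex.norm_real, Real.norm_of_nonneg hρ0.le]
      have := norm_nonneg (u - A.pt γ)
      nlinarith
    exact e2.trans (pow_le_pow_left₀ (norm_nonneg _) e3 2)

end Pool.Agent.SG
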