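import Pool.Agent.helper3.SG.SpecS

/-!
# Project sg: module S15, limits of stationary measures
-/

set_option autoImplicit false

open MeasureTheory Set Metric Filter Topology
open scoped ENNReal NNReal ComplexConjugate commutatorElement

namespace Pool.Agent.SG

theorem S15_den {a b ξ : ℂ} (h : ‖a‖ ^ 2 - ‖b‖ ^ 2 = 1) (hξ : ‖ξ‖ ≤ 1) :
    conj b * ξ + conj a ≠ 0 := by
  intro h0
  have h1 : conj a = -(conj b * ξ) := by
    linear_combination h0
  have h2 : ‖a‖ = ‖b‖ * ‖ξ‖ := by
    have := congrArg norm h1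
    rwa [norm_neg, norm_mul, Complex.norm_conj, Complex.norm_conj] at this
  have h3 : ‖a‖ ≤ ‖b‖ := by
    rw [h2]
    exact mul_le_of_le_one_right (norm_nonneg _) hξ
  nlinarith [norm_nonneg a, norm_nonneg b]

theorem S15_mob_meas (a b : ℂ) : Measurable (mob a b) := by
  unfold mob
  fun_prop

theorem S15_mob_cont {a b : ℂ} (h : ‖a‖ ^ 2 - ‖b‖ ^ 2 = 1) : ContinuousOn (mob a b) circ := by
  unfold mob
  apply ContinuousOn.div
  · fun_prop
  · fun_prop
  · intro ξ hξ
    refine S15_den h ?_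
    have : ‖ξ‖ = 1 := by simpa [circ] using hξ
    exact this.le

theorem S15_lift (ν : Measure ℂ) (hp : IsProbabilityMeasure ν) (hs : ν circᶜ = 0) :
    ∃ μ : ProbabilityMeasure ↥circ, (μ : Measure ↥circ).map Subtype.val = ν := by
  have hmeas : MeasurableSet circ := isClosed_sphere.measurableSet
  have hemb : MeasurableEmbedding (Subtype.val : ↥circ → ℂ) :=
    MeasurableEmbedding.subtype_coe hmeas
  have hmap : (ν.comap (Subtype.val : ↥circ → ℂ)).map Subtype.val = ν := by
    rw [hemb.map_comap, Subtype.range_coe]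
    exact Measure.restrict_eq_self_of_ae_mem (by
      rw [ae_iff]
      exact hs)
  have hprob : IsProbabilityMeasure (ν.comap (Subtype.val : ↥circ → ℂ)) := by
    constructor
    have h1 : ν univ = 1 := hp.measure_univ
    rw [← hmap, Measure.map_apply measurable_subtype_coe MeasurableSet.univ, preimage_univ] at h1
    exact h1
  exact ⟨⟨_, hprob⟩, hmap⟩

theorem S15_int {Γ : Type} [Group Γ] (A : DiscRep Γ) (W : Walk Γ) (ν : Measure ℂ)
    (hν : IsProbabilityMeasure ν) (f : BoundedContinuousFunction ℂ ℝ) :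
    ∫ ξ, f ξ ∂(∑ s ∈ W.S, W.μ s • ν.map (A.act s))
      = ∑ s ∈ W.S, (W.μ s).toReal * ∫ ξ, f (A.act s ξ) ∂ν := by
  have hfin : ∀ s ∈ W.S, W.μ s ≠ ∞ := by
    intro s hs h
    have h1 : W.μ s ≤ ∑ s ∈ W.S, W.μ s := Finset.single_le_sum (fun _ _ => zero_le) hs
    rw [W.sum, h] at h1
    simp at h1
  have hmeas : ∀ s, Measurable (A.act s) := fun s => S15_mob_meas _ _
  have hint : ∀ s ∈ W.S, Integrable (fun ξ => f ξ) (W.μ s • ν.map (A.act s)) := by
    intro s hs
    have h1 : IsFiniteMeasure (ν.map (A.act s)) := by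
      have := Measure.isProbabilityMeasure_map (μ := ν) (hmeas s).aemeasurable
      infer_instance
    have h2 : Integrable (fun ξ => f ξ) (ν.map (A.act s)) := f.integrable _
    exact h2.smul_measure (hfin s hs)
  rw [integral_finsetSum_measure hint]
  refine Finset.sum_congr rfl fun s hs => ?_
  rw [integral_smul_measure, integral_map (hmeas s).aemeasurable
    f.continuous.aestronglyMeasurable, smul_eq_mul]

theorem S15_unif (f : BoundedContinuousFunction ℂ ℝ) {a b : ℂ} (h : ‖a‖ ^ 2 - ‖b‖ ^ 2 = 1)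
    (ε : ℝ) (hε : 0 < ε) :
    ∀ᶠ p : ℂ × ℂ in 𝓝 (a, b), ∀ ξ ∈ circ, ‖f (mob p.1 p.2 ξ) - f (mob a b ξ)‖ ≤ ε := by
  refine (isCompact_sphere (0 : ℂ) 1).eventually_forall_of_forall_eventually
    (P := fun (p : ℂ × ℂ) (ξ : ℂ) => ‖f (mob p.1 p.2 ξ) - f (mob a b ξ)‖ ≤ ε) ?_
  intro y hy
  have hy1 : ‖y‖ = 1 := by simpa using hy
  have hden : conj b * y + conj a ≠ 0 := S15_den h hy1.le
  have hc1 : ContinuousAt (fun z : (ℂ × ℂ) × ℂ => mob z.1.1 z.1.2 z.2) ((a, b), y) := by
    unfold mob
    apply ContinuousAt.div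
    · fun_prop
    · have : Continuous (fun z : (ℂ × ℂ) × ℂ => conj z.1.2 * z.2 + conj z.1.1) := by
        have hcc : Continuous (fun w : ℂ => conj w) := Complex.continuous_conj
        have h1 : Continuous (fun z : (ℂ × ℂ) × ℂ => conj z.1.2) :=
          hcc.comp (by fun_prop)
        have h2 : Continuous (fun z : (ℂ × ℂ) × ℂ => conj z.1.1) :=
          hcc.comp (by fun_prop)
        exact (h1.mul (by fun_prop)).add h2
      exact this.continuousAt
    · exact hden
  have hc2 : ContinuousAt (fun z : (ℂ × ℂ) × ℂ => mob a b z.2) ((a, b), y) := by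
    unfold mob
    apply ContinuousAt.div
    · fun_prop
    · fun_prop
    · exact hden
  have hc : ContinuousAt (fun z : (ℂ × ℂ) × ℂ => ‖f (mob z.1.1 z.1.2 z.2) - f (mob a b z.2)‖)
      ((a, b), y) := by
    have h1 : ContinuousAt (fun z : (ℂ × ℂ) × ℂ => f (mob z.1.1 z.1.2 z.2)) ((a, b), y) :=
      ContinuousAt.comp (f := fun z : (ℂ × ℂ) × ℂ => mob z.1.1 z.1.2 z.2) (g := f)
        f.continuous.continuousAt hc1
    have h2 : ContinuousAt (fun z : (ℂ × ℂ) × ℂ => f (mob a b z.2)) ((a, b), y) :=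
      ContinuousAt.comp (f := fun z : (ℂ × ℂ) × ℂ => mob a b z.2) (g := f)
        f.continuous.continuousAt hc2
    exact (h1.sub h2).norm
  have hlt : ‖f (mob ((a, b), y).1.1 ((a, b), y).1.2 ((a, b), y).2)
      - f (mob a b ((a, b), y).2)‖ < ε := by
    simpa using hε
  exact (hc.eventually_lt continuousAt_const hlt).mono fun z hz => hz.le

theorem S15 : S15_stmt := by
  intro Γ _ W U Ak A νk hA hB hst
  have hcc : CompactSpace ↥circ :=
    isCompact_iff_compactSpace.1 (isCompact_sphere (0 : ℂ) 1)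
  have hmeas : MeasurableSet circ := isClosed_sphere.measurableSet
  have hemb : MeasurableEmbedding (Subtype.val : ↥circ → ℂ) :=
    MeasurableEmbedding.subtype_coe hmeas
  choose μk hμk using fun k => S15_lift (νk k) (hst k).prob (hst k).supp
  obtain ⟨μ, -, hμ⟩ := (isCompact_univ (X := ProbabilityMeasure ↥circ)).ultrafilter_le_nhds
    (U.map μk) (by simp)
  have htend : Tendsto μk U (𝓝 μ) := hμ
  rw [ProbabilityMeasure.tendsto_iff_forall_integral_tendsto] at htend
  set ν : Measure ℂ := (μ : Measure ↥circ).map Subtype.val with hν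
  have hconv : ∀ f : ℂ → ℝ, ContinuousOn f circ →
      Tendsto (fun k => ∫ ξ, f ξ ∂(νk k)) U (𝓝 (∫ ξ, f ξ ∂ν)) := by
    intro f hf
    have hfc : Continuous (fun ξ : ↥circ => f ξ) :=
      continuousOn_iff_continuous_domRestrict.1 hf
    have h1 := htend (BoundedContinuousFunction.mkOfCompact ⟨fun ξ : ↥circ => f ξ, hfc⟩)
    have h2 : ∀ k, ∫ ξ, f ξ ∂(νk k) = ∫ ξ : ↥circ, f ξ ∂(μk k : Measure ↥circ) := by
      intro k
      rw [← hμk k, hemb.integral_map]
    have h3 : ∫ ξ, f ξ ∂ν = ∫ ξ : ↥circ, f ξ ∂(μ : Measure ↥circ) := by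
      rw [hν, hemb.integral_map]
    rw [h3]
    simp_rw [h2]
    exact h1
  have hprob : IsProbabilityMeasure ν :=
    Measure.isProbabilityMeasure_map measurable_subtype_coe.aemeasurable
  have hsupp : ν circᶜ = 0 := by
    rw [hν, Measure.map_apply measurable_subtype_coe hmeas.compl]
    have : (Subtype.val : ↥circ → ℂ) ⁻¹' circᶜ = ∅ := by
      ext x
      simp
    rw [this, measure_empty]
  refine ⟨ν, ⟨hprob, hsupp, ?_⟩, hconv⟩
  have hfin : IsFiniteMeasure (∑ s ∈ W.S, W.μ s • ν.map (A.act s)) := by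
    constructor
    rw [Measure.finsetSum_apply]
    refine ENNReal.sum_lt_top.2 fun s hs => ?_
    have h1 : W.μ s ≤ ∑ s ∈ W.S, W.μ s := Finset.single_le_sum (fun _ _ => zero_le) hs
    rw [W.sum] at h1
    have h2 : IsProbabilityMeasure (ν.map (A.act s)) :=
      Measure.isProbabilityMeasure_map (S15_mob_meas _ _).aemeasurable
    rw [Measure.smul_apply, measure_univ, smul_eq_mul, mul_one]
    exact lt_of_le_of_lt h1 ENNReal.one_lt_top
  refine ext_of_forall_integral_eq_of_IsFiniteMeasure fun f => ?_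
  rw [S15_int A W ν hprob f]
  have hlim1 := hconv f f.continuous.continuousOn
  have hlim2 : Tendsto (fun k => ∑ s ∈ W.S, (W.μ s).toReal * ∫ ξ, f ((Ak k).act s ξ) ∂(νk k)) U
      (𝓝 (∑ s ∈ W.S, (W.μ s).toReal * ∫ ξ, f (A.act s ξ) ∂ν)) := by
    refine tendsto_finsetSum _ fun s hs => Tendsto.const_mul _ ?_
    have hcont : ContinuousOn (fun ξ => f (A.act s ξ)) circ :=
      f.continuous.comp_continuousOn (S15_mob_cont (A.norm_eq s))
    have hmain := hconv _ hcont
    have hdiff : Tendsto (fun k => ∫ ξ, f ((Ak k).act s ξ) ∂(νk k) - ∫ ξ, f (A.act s ξ) ∂(νk k)) U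
        (𝓝 0) := by
      rw [Metric.tendsto_nhds]
      intro ε hε
      have hab : Tendsto (fun k => ((Ak k).a s, (Ak k).b s)) U (𝓝 (A.a s, A.b s)) :=
        (hA s).prodMk_nhds (hB s)
      filter_upwards [hab.eventually (S15_unif f (A.norm_eq s) (ε / 2) (by positivity))] with k hk
      have hpk : IsProbabilityMeasure (νk k) := (hst k).prob
      have hbd : ∀ (g : ℂ → ℂ), Measurable g → Integrable (fun ξ => f (g ξ)) (νk k) := by
        intro g hg
        refine Integrable.of_bound (f.continuous.measurable.comp hg).aestronglyMeasurable ‖f‖ ?_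
        exact Filter.Eventually.of_forall fun ξ => f.norm_coe_le_norm _
      have hi1 : Integrable (fun ξ => f ((Ak k).act s ξ)) (νk k) := hbd _ (S15_mob_meas _ _)
      have hi2 : Integrable (fun ξ => f (A.act s ξ)) (νk k) := hbd _ (S15_mob_meas _ _)
      rw [← integral_sub hi1 hi2, dist_zero_right]
      have hae : ∀ᵐ ξ ∂(νk k), ‖f ((Ak k).act s ξ) - f (A.act s ξ)‖ ≤ ε / 2 := by
        have hcirc : ∀ᵐ ξ ∂(νk k), ξ ∈ circ := by
          rw [ae_iff]
          exact (hst k).supp
        exact hcirc.mono fun ξ hξ => hk ξ hξ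
      have := norm_integral_le_of_norm_le_const hae
      rw [measureReal_def, measure_univ] at this
      simp only [ENNReal.toReal_one, mul_one] at this
      exact lt_of_le_of_lt this (by linarith)
    have := hdiff.add hmain
    rw [zero_add] at this
    refine this.congr fun k => ?_
    ring
  have heq : ∀ k, ∫ ξ, f ξ ∂(νk k) = ∑ s ∈ W.S, (W.μ s).toReal * ∫ ξ, f ((Ak k).act s ξ) ∂(νk k) := by
    intro k
    conv_lhs => rw [(hst k).stat]
    exact S15_int (Ak k) W (νk k) (hst k).prob f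
  simp_rw [heq] at hlim1
  exact tendsto_nhds_unique hlim1 hlim2

end Pool.Agent.SG
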